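import Pool.Agent.Y879.NP.Top

set_option autoImplicit false

/-!
Windows of `y` consecutive integers with `R(y) ≥ π(y) + α y log log log y / (log y) ^ 2` almost primes (the largest
possible number) at least `c log y` of which are ACTUAL PRIMES, in the right order of magnitude and along narrow
progressions.
-/

namespace Pool.Agent.Results.MP_5046ca_nt.ManyPrimesInMaximalWindows

open Finset Filter
open Pool.Agent.Y879.NP
open Pool.Agent.Y879.PR (adm_le rh_low Rh)

/-- `S` is admissible: for every prime `q` there is an `a` such that `q` divides no `a + s`, `s ∈ S` -/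
def Admissible (S : Finset ℕ) : Prop := ∀ q : ℕ, q.Prime → ∃ a : ℕ, ∀ s ∈ S, ¬ q ∣ a + s

open Classical in
/-- the largest number of elements of an admissible set of integers in `[0, y)` -/
noncomputable def R (y : ℕ) : ℕ := ((range y).powerset.filter Admissible).sup Finset.card

open Classical in
/-- the `m ∈ (X, 3 X]` such that for all `s ∈ S` all prime factors of `m + s` exceed `X ^ δ`, and such that at
least `u` of the `m + s`, `s ∈ S`, are PRIME -/
def Win (S : Finset ℕ) (u δ X : ℝ) : Set ℕ := {m | X < m ∧ (m : ℝ) ≤ 3 * X ∧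
  (∀ s ∈ S, ∀ p : ℕ, p.Prime → p ∣ m + s → X ^ δ < p) ∧ u ≤ ((S.filter (fun s => (m + s).Prime)).card : ℝ)}

lemma pi_sq : ∀ᶠ y : ℕ in atTop, (y : ℝ) ≤ (Nat.primeCounting y : ℝ) ^ 2 := by
  obtain ⟨C, hC, h⟩ := Pool.Agent.H381R2.HR.Asm.pnt2
  have hlog : Tendsto (fun n : ℕ => Real.log (n : ℝ)) atTop atTop :=
    Real.tendsto_log_atTop.comp tendsto_natCast_atTop_atTop
  have h2 : ∀ᶠ y : ℕ in atTop, Real.log y ^ 2 ≤ 1 / 4 * y := by
    have h3 := (Real.isLittleO_pow_log_id_atTop (n := 2)).bound (by norm_num : (0 : ℝ) < 1 / 4)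
    have h4 := tendsto_natCast_atTop_atTop.eventually h3
    filter_upwards [h4] with y hy
    simp only [id] at hy
    rw [Real.norm_of_nonneg (by positivity), Real.norm_of_nonneg (Nat.cast_nonneg _)] at hy
    exact hy
  filter_upwards [h2, hlog.eventually_ge_atTop (max 1 (2 * C)), eventually_ge_atTop 2] with y hy hy2 hy3
  have hy0 : (0 : ℝ) < y := by exact_mod_cast (by omega : 0 < y)
  have hl1 : 1 ≤ Real.log y := (le_max_left _ _).trans hy2
  have hl2 : 2 * C ≤ Real.log y := (le_max_right _ _).trans hy2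
  have hl0 : 0 < Real.log y := by linarith
  have h5 := h (y : ℝ) (by exact_mod_cast hy3)
  rw [Nat.floor_natCast] at h5
  have h6 := (abs_le.1 h5).1
  have h7 : C * ((y : ℝ) / Real.log y ^ 2) ≤ y / (2 * Real.log y) := by
    have e1 : C * ((y : ℝ) / Real.log y ^ 2) = (2 * C) * (y / (2 * Real.log y ^ 2)) := by field_simp
    have e2 : (y : ℝ) / (2 * Real.log y) = Real.log y * (y / (2 * Real.log y ^ 2)) := by field_simp
    rw [e1, e2]
    exact mul_le_mul_of_nonneg_right hl2 (by positivity)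
  have h8 : (y : ℝ) / (2 * Real.log y) ≤ Nat.primeCounting y := by
    have e3 : (y : ℝ) / Real.log y = y / (2 * Real.log y) + y / (2 * Real.log y) := by field_simp; ring
    rw [e3] at h6
    linarith
  have h9 : (y : ℝ) ≤ (y / (2 * Real.log y)) ^ 2 := by
    rw [div_pow, le_div_iff₀ (by positivity)]
    nlinarith
  exact h9.trans (pow_le_pow_left₀ (by positivity) h8 2)

/-- **Many primes in windows with the maximal number of almost primes.** There is an absolute constant `c > 0` such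
that for every `α < 1 / 2` and all large `y`: (1) `R y ≥ π(y) + α y log log log y / (log y) ^ 2`, and there is an
admissible `S ⊆ [0, y)` with `R y` elements; (2) for EVERY admissible `S ⊆ [0, y)` with at least `√y` elements (in
particular for all those with `R y` elements) there are `δ, κ > 0` and `r` such that for all large `X` at least
`κ X / (log X) ^ |S|` integers `m` belong to `Win S (c log y) δ X`, and for these all `m + s`, `s ∈ S`, have at
most `r` prime factors; and for every `l` and `ε > 0` there is `C` such that for all large `X` every set of at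
least `ε X / (log X) ^ |S|` elements of `Win S (c log y) δ X` contains a progression `m, m + d, ..., m + (l - 1) d`
with `1 ≤ d ≤ (log X) ^ C`. -/
theorem result : ∃ c : ℝ, 0 < c ∧ ∀ α : ℝ, α < 1 / 2 → ∃ y₀ : ℕ, ∀ y : ℕ, y₀ ≤ y →
    (Nat.primeCounting y : ℝ) + α * (y * Real.log (Real.log (Real.log y)) / Real.log y ^ 2) ≤ R y ∧
    (∃ S : Finset ℕ, S ⊆ range y ∧ Admissible S ∧ S.card = R y ∧ y ≤ S.card ^ 2) ∧
    ∀ S : Finset ℕ, S ⊆ range y → Admissible S → y ≤ S.card ^ 2 →
    ∃ (δ κ : ℝ) (r : ℕ), 0 < δ ∧ 0 < κ ∧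
      (∃ X₀ : ℝ, ∀ X : ℝ, X₀ ≤ X →
        (∃ A : Finset ℕ, (∀ m ∈ A, m ∈ Win S (c * Real.log y) δ X) ∧ κ * X / Real.log X ^ S.card ≤ A.card) ∧
        ∀ m ∈ Win S (c * Real.log y) δ X, ∀ s ∈ S, (m + s).primeFactorsList.length ≤ r) ∧
      ∀ (l : ℕ) (ε : ℝ), 0 < ε → ∃ (C : ℕ) (X₀ : ℝ), ∀ X : ℝ, X₀ ≤ X → ∀ A : Finset ℕ,
        (∀ m ∈ A, m ∈ Win S (c * Real.log y) δ X) → ε * X / Real.log X ^ S.card ≤ A.card →
        ∃ m d : ℕ, 1 ≤ d ∧ (d : ℝ) ≤ Real.log X ^ C ∧ ∀ i < l, m + i * d ∈ A := by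
  classical
  obtain ⟨c, n0, hc, hsets⟩ := Pool.Agent.Y879.NP.sets
  refine ⟨c / 2, by positivity, ?_⟩
  intro α hα
  obtain ⟨y1, hy1⟩ := rh_low hα
  obtain ⟨y2, hy2⟩ := rh_low (by norm_num : (0 : ℝ) < 1 / 2)
  obtain ⟨y3, hy3⟩ := eventually_atTop.1 pi_sq
  refine ⟨max (max y1 y2) (max y3 (max (n0 ^ 2) 2)), ?_⟩
  intro y hy
  have g1 : y1 ≤ y := (le_max_left _ _).trans ((le_max_left _ _).trans hy)
  have g2 : y2 ≤ y := (le_max_right _ _).trans ((le_max_left _ _).trans hy)
  have g3 : y3 ≤ y := (le_max_left _ _).trans ((le_max_right _ _).trans hy)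
  have g4 : n0 ^ 2 ≤ y := (le_max_left _ _).trans ((le_max_right _ _).trans ((le_max_right _ _).trans hy))
  have g5 : 2 ≤ y := (le_max_right _ _).trans ((le_max_right _ _).trans ((le_max_right _ _).trans hy))
  refine ⟨hy1 y g1, ?_, ?_⟩
  · have hne : ((range y).powerset.filter Admissible).Nonempty :=
      ⟨∅, mem_filter.2 ⟨by simp, fun q _ => ⟨0, by simp⟩⟩⟩
    obtain ⟨S, hS, hSc⟩ := Finset.exists_mem_eq_sup _ hne Finset.card
    obtain ⟨hS1, hS2⟩ := mem_filter.1 hS
    rw [mem_powerset] at hS1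
    have hRS : R y = S.card := hSc
    refine ⟨S, hS1, hS2, hRS.symm, ?_⟩
    have h1 := hy2 y g2
    rw [zero_mul, add_zero] at h1
    have h2 := hy3 y g3
    have h3 : (y : ℝ) ≤ (S.card : ℝ) ^ 2 := by
      refine h2.trans (pow_le_pow_left₀ (Nat.cast_nonneg _) ?_ 2)
      rw [← hRS]
      exact h1
    exact_mod_cast h3
  · intro S hSy hadm hSc
    have hn : n0 ≤ S.card := by
      by_contra hcon
      rw [not_le] at hcon
      have h1 : S.card ^ 2 < n0 ^ 2 := Nat.pow_lt_pow_left hcon (by norm_num)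
      omega
    choose! a ha using hadm
    obtain ⟨δ, κ, hδ, hκ, hev⟩ := hsets S y hn hSy a (fun p hp _ s hs => ha p hp s hs)
    obtain ⟨r, hr⟩ := few y δ hδ
    have hlog : c / 2 * Real.log y ≤ c * Real.log S.card := by
      have hy0 : (0 : ℝ) < y := by exact_mod_cast (by omega : 0 < y)
      have h1 : Real.log y ≤ 2 * Real.log S.card := by
        have h2 : Real.log y ≤ Real.log ((S.card : ℝ) ^ 2) :=
          Real.log_le_log hy0 (by exact_mod_cast hSc)
        rw [Real.log_pow] at h2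
        exact_mod_cast h2
      nlinarith
    refine ⟨δ, κ, r, hδ, hκ, ?_, ?_⟩
    · obtain ⟨X₀, hX₀⟩ := eventually_atTop.1 (hev.and (hr.and (eventually_ge_atTop 1)))
      refine ⟨X₀, fun X hX => ?_⟩
      obtain ⟨q1, q2, q3⟩ := hX₀ X hX
      refine ⟨⟨_, ?_, q1⟩, ?_⟩
      · intro m hm
        obtain ⟨t1, t2, -, t4, t5⟩ := mem_filter.1 hm
        rw [mem_Icc] at t1
        have hX0 : (0 : ℝ) ≤ 3 * X := by linarith
        exact ⟨t2, (Nat.le_floor_iff hX0).1 t1.2, t4, hlog.trans t5⟩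
      · intro m hm s hs
        obtain ⟨t1, t2, t3, -⟩ := hm
        have hm0 : (0 : ℝ) < m := by linarith
        exact q2 m s (mem_range.1 (hSy hs)).le (by exact_mod_cast hm0) t2 (t3 s hs)
    · intro l ε hε
      obtain ⟨C, X₀, hN⟩ := narrow S l δ ε hδ hε
      refine ⟨C, X₀, fun X hX A hA hAc => ?_⟩
      exact hN X hX A (fun m hm => ⟨(hA m hm).1, (hA m hm).2.1⟩)
        (fun m hm s hs p hp hpd => (hA m hm).2.2.1 s hs p hp hpd) hAc

end Pool.Agent.Results.MP_5046ca_nt.ManyPrimesInMaximalWindows
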