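import Pool.Agent.Y879.PR.Win

set_option autoImplicit false

/-!
Windows of `y` consecutive integers with `R(y)` almost primes, one of which is an ACTUAL PRIME, where `R(y)` is
the largest possible number and exceeds `π(y)` by `α y log log log y / (log y) ^ 2` for every `α < 1 / 2`: all
maximal patterns, the prime at an arbitrary place, asymptotic number and Poisson law.
-/

namespace Pool.Agent.Results.MP_5046ca_nt.MaximalWindowsWithAPrime

open Finset Filter
open Pool.Agent.Y879.PR

/-- `S` is admissible: for every prime `q` there is an `a` such that `q` divides no `a + s`, `s ∈ S` -/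
def Admissible (S : Finset ℕ) : Prop := ∀ q : ℕ, q.Prime → ∃ a : ℕ, ∀ s ∈ S, ¬ q ∣ a + s

open Classical in
/-- the largest number of elements of an admissible set of integers in `[0, y)` -/
noncomputable def R (y : ℕ) : ℕ := ((range y).powerset.filter Admissible).sup Finset.card

/-- `m` has no prime factor `p ≤ N ^ (1 / r)` -/
def Rough (N r m : ℕ) : Prop := ∀ p : ℕ, p.Prime → (p : ℝ) ≤ (N : ℝ) ^ (1 / (r : ℝ)) → ¬ p ∣ m

/-- `0` for `p ≤ y`, otherwise `k` -/
def nu (y k p : ℕ) : ℕ := if p ≤ y then 0 else k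

/-- the product of `1 - k / p` over the primes `y < p ≤ N ^ (1 / r)` -/
noncomputable def V (y k N r : ℕ) : ℝ :=
  ∏ p ∈ (Icc 1 ⌊(N : ℝ) ^ (1 / (r : ℝ))⌋₊).filter Nat.Prime, (1 - (nu y k p : ℝ) / p)

/-- `V` divided by the product of `1 - 1 / p` over the primes `p ≤ N ^ (1 / r)` -/
noncomputable def W (y k N r : ℕ) : ℝ :=
  ∏ p ∈ (Icc 1 ⌊(N : ℝ) ^ (1 / (r : ℝ))⌋₊).filter Nat.Prime, (1 - (nu y k p : ℝ) / p) / (1 - 1 / (p : ℝ))

open Classical in
/-- the classes `c` modulo the product `primorial y` of the primes `p ≤ y` for which all `c + s`, `s ∈ S`, are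
prime to `primorial y` -/
noncomputable def Cls (y : ℕ) (S : Finset ℕ) : Finset ℕ :=
  (range (primorial y)).filter (fun c => ∀ s ∈ S, Nat.Coprime (primorial y) (c + s))

open Classical in
/-- the `m` in `(A, A + L]` for which all `m + s`, `s ∈ S`, are almost primes and `m + t` is PRIME -/
noncomputable def Pr (S : Finset ℕ) (N r t A L : ℕ) : Finset ℕ :=
  (Ioc A (A + L)).filter (fun m => (m + t).Prime ∧ ∀ s ∈ S, Rough N r (m + s))

open Classical in
/-- the number of the `l` in `(m, m + primorial y * T]`, congruent to `m` modulo `primorial y`, for which all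
`l + s`, `s ∈ S`, are almost primes -/
noncomputable def Next (y : ℕ) (S : Finset ℕ) (N r T m : ℕ) : ℕ :=
  ((Ioc m (m + primorial y * T)).filter
    (fun l => l % primorial y = m % primorial y ∧ ∀ s ∈ S, Rough N r (l + s))).card

/-- **Windows with the maximal number of almost primes, one of them an actual prime.**
(1) For every `α < 1 / 2` and all large `y`: `R y ≥ π(y) + α y log log log y / (log y) ^ 2`; for every `y ≥ 1`
there is an admissible `S ⊆ [0, y)` with `0 ∈ S` and `R y` elements.
(2) Let `y ≥ 3` and let `S ⊆ [0, y)` be ANY admissible set with `0 ∈ S` and at least two elements. For all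
`θ > 0`, `0 < δ ≤ 1`, `0 < ε ≤ 1` and `x₀` there is `r₀` such that for every `r ≥ r₀` and all large `N`:
(a) if `m ≤ N` and all `m + s`, `s ∈ S`, are rough, then each of them has at most `r` prime factors;
(b) no window `[n, n + y)` contains more than `R y` rough integers;
(c) if `X ≥ N ^ θ`, `L ≥ δ X` and `A + L ≤ X`, then for EVERY `t ∈ S` the number of the `m` in `(A, A + L]` with
`m + t` PRIME and all `m + s` rough is `(1 + η) |Cls| (L / primorial y) W / log X`, `|η| ≤ ε`, and at these `m`
the number `Next` of the following such windows has the Poisson law of mean `T V`, up to `ε`, for all `T` with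
`T V ≤ x₀`. -/
theorem result :
    (∀ α : ℝ, α < 1 / 2 → ∃ y₀ : ℕ, ∀ y : ℕ, y₀ ≤ y →
      (Nat.primeCounting y : ℝ) + α * (y * Real.log (Real.log (Real.log y)) / Real.log y ^ 2) ≤ R y) ∧
    (∀ y : ℕ, 1 ≤ y → ∃ S : Finset ℕ, S ⊆ range y ∧ 0 ∈ S ∧ Admissible S ∧ S.card = R y) ∧
    ∀ (y : ℕ) (S : Finset ℕ), 3 ≤ y → S ⊆ range y → 0 ∈ S → Admissible S → 2 ≤ S.card →
    ∀ θ δ x₀ ε : ℝ, 0 < θ → 0 < δ → δ ≤ 1 → 0 < ε → ε ≤ 1 →
    ∃ r₀ : ℕ, ∀ r : ℕ, r₀ ≤ r → ∃ N₀ : ℕ, ∀ N : ℕ, N₀ ≤ N →
      (∀ m : ℕ, m ≤ N → (∀ s ∈ S, Rough N r (m + s)) → ∀ s ∈ S, (m + s).primeFactorsList.length ≤ r) ∧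
      (∀ (n : ℕ) (A : Finset ℕ), A ⊆ Ico n (n + y) → (∀ m ∈ A, Rough N r m) → A.card ≤ R y) ∧
      (Cls y S).Nonempty ∧ 0 < W y S.card N r ∧
      ∀ t ∈ S, ∀ X : ℕ, (N : ℝ) ^ θ ≤ X → ∀ A L : ℕ, δ * X ≤ L → A + L ≤ X →
        |((Pr S N r t A L).card : ℝ) * Real.log X - (Cls y S).card * (L / primorial y * W y S.card N r)| ≤
          ε * ((Cls y S).card * (L / primorial y * W y S.card N r)) ∧
        ∀ T : ℕ, T * V y S.card N r ≤ x₀ → ∀ B : Finset ℕ,
          |(((Pr S N r t A L).filter (fun m => Next y S N r T m ∈ B)).card : ℝ) -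
            (Pr S N r t A L).card *
              ∑ j ∈ B, Real.exp (-(T * V y S.card N r)) * (T * V y S.card N r) ^ j / j.factorial| ≤
            ε * (Pr S N r t A L).card := by
  classical
  have hR : ∀ y, R y = Rh y := fun y => rfl
  refine ⟨?_, ?_, ?_⟩
  · intro α hα
    simpa only [hR] using rh_low hα
  · intro y hy
    have hne : ((range y).powerset.filter Admissible).Nonempty :=
      ⟨∅, mem_filter.2 ⟨by simp, fun q _ => ⟨0, by simp⟩⟩⟩
    obtain ⟨S, hS, hSc⟩ := Finset.exists_mem_eq_sup _ hne Finset.card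
    obtain ⟨hS1, hS2⟩ := mem_filter.1 hS
    rw [mem_powerset] at hS1
    have hRS : R y = S.card := hSc
    -- the singleton shows that `R y ≥ 1`
    have h1 : 1 ≤ R y := by
      have : ({0} : Finset ℕ).card ≤ R y := by
        rw [hR]
        apply adm_le
        · intro x hx
          rw [mem_singleton] at hx
          rw [mem_range]
          omega
        · intro q hq
          refine ⟨1, fun s hs => ?_⟩
          rw [mem_singleton] at hs
          rw [hs]
          intro hd
          exact hq.one_lt.ne' (Nat.dvd_one.1 hd)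
      simpa using this
    have hSne : S.Nonempty := Finset.card_pos.1 (by omega)
    obtain ⟨a, ha, hmin⟩ : ∃ a ∈ S, ∀ s ∈ S, a ≤ s := ⟨S.min' hSne, S.min'_mem hSne, fun s hs => S.min'_le s hs⟩
    refine ⟨S.image (fun s => s - a), ?_, ?_, ?_, ?_⟩
    · intro x hx
      obtain ⟨s, hs, rfl⟩ := mem_image.1 hx
      have := mem_range.1 (hS1 hs)
      rw [mem_range]
      omega
    · exact mem_image.2 ⟨a, ha, by omega⟩
    · intro q hq
      obtain ⟨b, hb⟩ := hS2 q hq
      refine ⟨b + a, ?_⟩
      intro x hx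
      obtain ⟨s, hs, rfl⟩ := mem_image.1 hx
      have h2 := hmin s hs
      have e : b + a + (s - a) = b + s := by omega
      rw [e]
      exact hb s hs
    · rw [hRS]
      apply Finset.card_image_of_injOn
      intro u hu v hv huv
      have h2 := hmin u hu
      have h3 := hmin v hv
      have h4 : u - a = v - a := huv
      omega
  · intro y S hy3 hSy hS0 hadm hS2 θ δ x₀ ε hθ hδ hδ1 hε hε1
    obtain ⟨h, hh⟩ : ∃ h : Fin S.card → ℕ, h = fun i => S.orderEmbOfFin rfl i := ⟨_, rfl⟩
    have hinj : Function.Injective h := by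
      rw [hh]
      exact (S.orderEmbOfFin rfl).injective
    have hmem : ∀ i, h i ∈ S := by
      intro i
      rw [hh]
      exact Finset.orderEmbOfFin_mem _ _ _
    have hsurj : ∀ s ∈ S, ∃ i, h i = s := by
      intro s hs
      have h1 : s ∈ Set.range (S.orderEmbOfFin rfl) := by
        rw [Finset.range_orderEmbOfFin]
        exact hs
      obtain ⟨i, hi⟩ := h1
      exact ⟨i, by rw [hh]; exact hi⟩
    have hP := pat_adm hS2 hy3 hinj (fun i => mem_range.1 (hSy (hmem i))) (hsurj 0 hS0)
    have hCl : Cl y h = Cls y S := by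
      unfold Cl Cls
      apply filter_congr
      intro c _
      constructor
      · intro h1 s hs
        obtain ⟨i, rfl⟩ := hsurj s hs
        exact h1 i
      · intro h1 i
        exact h1 _ (hmem i)
    have hne : (Cl y h).Nonempty := cl_ne (fun q hq => by
      obtain ⟨a, ha⟩ := hadm q hq
      exact ⟨a, fun i => ha _ (hmem i)⟩)
    have hnu : ∀ p : ℕ, p.Prime → pnu (primorial y) S.card p = nu y S.card p := by
      intro p hp
      unfold pnu nu
      by_cases hpy : p ≤ y
      · rw [if_pos (dvd_pri hp hpy), if_pos hpy]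
      · rw [if_neg (fun hd => hpy (le_of_dvd_pri hp hd)), if_neg hpy]
    have hV : ∀ N r, PV (primorial y) S.card N r = V y S.card N r := by
      intro N r
      unfold PV V
      apply Finset.prod_congr rfl
      intro p hp
      rw [hnu p (mem_filter.1 hp).2]
    have hW : ∀ N r, PW (primorial y) S.card N r = W y S.card N r := by
      intro N r
      unfold PW W
      apply Finset.prod_congr rfl
      intro p hp
      rw [hnu p (mem_filter.1 hp).2]
    have hG : ∀ N r m, PG h N r m ↔ ∀ s ∈ S, Rough N r (m + s) := by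
      intro N r m
      unfold PG Rough
      constructor
      · intro h1 s hs p hp hpz
        obtain ⟨i, rfl⟩ := hsurj s hs
        exact h1 p hp hpz i
      · intro h1 p hp hpz i
        exact h1 _ (hmem i) p hp hpz
    obtain ⟨r₀, hr₀, hmain⟩ := pat_main hP hne θ δ hθ hδ hδ1 x₀ ε hε hε1
    refine ⟨r₀, ?_⟩
    intro r hr
    obtain ⟨N₀, hN₀⟩ := hmain r hr
    have hrr : (2 : ℝ) ≤ r := by exact_mod_cast hr₀.trans hr
    have hz : ∀ᶠ N : ℕ in atTop, (y : ℝ) ≤ (N : ℝ) ^ (1 / (r : ℝ)) :=
      ((tendsto_rpow_atTop (by positivity)).comp tendsto_natCast_atTop_atTop).eventually_ge_atTop _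
    obtain ⟨N₁, hN₁⟩ := eventually_atTop.1 hz
    refine ⟨max N₀ N₁, ?_⟩
    intro N hN
    obtain ⟨g1, -, g3, -, -, g6⟩ := hN₀ N ((le_max_left _ _).trans hN)
    have gz := hN₁ N ((le_max_right _ _).trans hN)
    have hPr : ∀ i A L, PP h N r i A L = Pr S N r (h i) A L := by
      intro i A L
      unfold PP Pr
      apply filter_congr
      intro m _
      rw [hG]
    have hNx : ∀ T m, PNext h (primorial y) N r T m = Next y S N r T m := by
      intro T m
      unfold PNext Next
      congr 1
      apply filter_congr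
      intro l _
      rw [hG]
    refine ⟨?_, ?_, ?_, ?_, ?_⟩
    · intro m hm hro s hs
      obtain ⟨i, rfl⟩ := hsurj s hs
      exact g1 m hm ((hG N r m).2 hro) i
    · intro n A hA hro
      rw [hR]
      refine (card_le_card ?_).trans (win_le y n _ gz)
      intro m hm
      exact mem_filter.2 ⟨hA hm, hro m hm⟩
    · rw [← hCl]
      exact hne
    · rw [← hW]
      exact g3
    · intro t ht X hX A L hL hAL
      obtain ⟨i, rfl⟩ := hsurj t ht
      obtain ⟨h8, h9⟩ := g6 i X hX A L hL hAL
      rw [hPr, hCl, hW] at h8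
      refine ⟨h8, ?_⟩
      intro T hT B
      rw [← hV] at hT
      have h10 := h9 T hT B
      rw [hPr, hV] at h10
      have e : ((Pr S N r (h i) A L).filter (fun m => PNext h (primorial y) N r T m ∈ B)) =
          ((Pr S N r (h i) A L).filter (fun m => Next y S N r T m ∈ B)) := by
        apply filter_congr
        intro m _
        rw [hNx]
      rw [e] at h10
      exact h10

end Pool.Agent.Results.MP_5046ca_nt.MaximalWindowsWithAPrime
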